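import Pool.Agent.Helper76.RD.Goals3

/-!
# Project RD, part F: all types and all faithful characters at the same time
-/

namespace Pool.Agent.Helper83.RD

open NumberField Module Pool.Agent.Helper51.SigLeo
open Pool.Agent.Helper51.RP Pool.Agent.Helper42.RD Pool.Agent.Helper76.RD

theorem conj_conj {K : Type} [Field K] (φ : K →+* ℂ) :
    ComplexEmbedding.conjugate (ComplexEmbedding.conjugate φ) = φ := by
  ext x
  simp

/-- A CM type has half of the embeddings. -/
theorem card_cm {K : Type} [Field K] [NumberField K] {S : Set (K →+* ℂ)} (hS : IsCMType S) {d : ℕ}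
    (hd : finrank ℚ K = 2 * d) : Nat.card S = d := by
  classical
  have h1 : Nat.card (K →+* ℂ) = 2 * d := by
    rw [Nat.card_eq_fintype_card, NumberField.Embeddings.card, hd]
  have h2 : Nat.card S = Nat.card (Sᶜ : Set (K →+* ℂ)) := by
    refine Nat.card_congr
      { toFun := fun φ => ⟨ComplexEmbedding.conjugate φ.1, (hS φ.1).1 φ.2⟩
        invFun := fun φ => ⟨ComplexEmbedding.conjugate φ.1, ?_⟩
        left_inv := fun φ => Subtype.ext (conj_conj φ.1)
        right_inv := fun φ => Subtype.ext (conj_conj φ.1) }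
    rw [hS, conj_conj]
    exact φ.2
  have h3 : Nat.card S + Nat.card (Sᶜ : Set (K →+* ℂ)) = Nat.card (K →+* ℂ) := by
    rw [← Nat.card_sum]
    exact Nat.card_congr (Equiv.Set.sumCompl S)
  omega

/-- A CM type is determined by its intersection with another one. -/
theorem cm_inj {K : Type} [Field K] {S₀ S T : Set (K →+* ℂ)} (h0 : IsCMType S₀)
    (hS : IsCMType S) (hT : IsCMType T) (h : ∀ φ ∈ S₀, φ ∈ S ↔ φ ∈ T) : S = T := by
  ext φ
  by_cases h1 : φ ∈ S₀
  · exact h φ h1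
  · have h2 : ComplexEmbedding.conjugate φ ∈ S₀ := by
      rw [h0, conj_conj]
      exact h1
    rw [hS φ, hT φ, h _ h2]

theorem e_all (h1 : E_RSQ) : E_ALL := by
  classical
  intro p _ K _ _ ιinf ιp L M _ _ hcop hM d hd hp hex
  obtain ⟨S₀, χ₁, hS₀, hO₀, hχ₁⟩ := hex
  let ι : Type := {x : Set (K →+* ℂ) × ((M ≃ₐ[K] M) →* ℂ_[p]ˣ) //
    IsCMType x.1 ∧ Ordy ιinf ιp x.1 ∧ Function.Injective x.2}
  have : Nonempty ι := ⟨⟨(S₀, χ₁), hS₀, hO₀, hχ₁⟩⟩
  -- the group is cyclic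
  have hcyc : IsCyclic (M ≃ₐ[K] M) :=
    isCyclic_of_injective_ringHom ((Units.coeHom ℂ_[p]).comp χ₁)
      (Units.val_injective.comp hχ₁)
  obtain ⟨g, hg⟩ := hcyc.exists_generator
  have hcard : Nat.card (M ≃ₐ[K] M) = finrank K M := IsGalois.card_aut_eq_finrank K M
  have : NeZero (finrank K M) := ⟨finrank_pos.ne'⟩
  have hroot : ∀ χ : (M ≃ₐ[K] M) →* ℂ_[p]ˣ, χ g ∈ rootsOfUnity (finrank K M) ℂ_[p] := by
    intro χ
    rw [mem_rootsOfUnity, ← map_pow, ← hcard, pow_card_eq_one', map_one]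
  have hχinj : ∀ χ χ' : (M ≃ₐ[K] M) →* ℂ_[p]ˣ, χ g = χ' g → χ = χ' := by
    intro χ χ' h
    ext1 x
    obtain ⟨n, rfl⟩ := Subgroup.mem_zpowers_iff.1 (hg x)
    rw [map_zpow, map_zpow, h]
  let F : ι → (Set S₀) × rootsOfUnity (finrank K M) ℂ_[p] :=
    fun x => ({φ : S₀ | φ.1 ∈ x.1.1}, ⟨x.1.2 g, hroot x.1.2⟩)
  have hF : Function.Injective F := by
    intro x y hxy
    have e1 : ({φ : S₀ | φ.1 ∈ x.1.1} : Set S₀) = {φ : S₀ | φ.1 ∈ y.1.1} :=
      congrArg Prod.fst hxy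
    have e2 : x.1.2 g = y.1.2 g := congrArg (fun z => (z.2 : ℂ_[p]ˣ)) hxy
    refine Subtype.ext (Prod.ext ?_ (hχinj _ _ e2))
    refine cm_inj hS₀ x.2.1 y.2.1 fun φ hφ => ?_
    have e3 := Set.ext_iff.1 e1 ⟨φ, hφ⟩
    exact e3
  have : Finite S₀ := Set.toFinite S₀
  have : Finite ι := Finite.of_injective F hF
  have hle : Nat.card ι ≤ p := by
    calc Nat.card ι ≤ Nat.card ((Set S₀) × rootsOfUnity (finrank K M) ℂ_[p]) :=
          Nat.card_le_card_of_injective F hF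
      _ = 2 ^ d * Nat.card (rootsOfUnity (finrank K M) ℂ_[p]) := by
          rw [Nat.card_prod]
          congr 1
          have := Fintype.ofFinite S₀
          rw [Nat.card_eq_fintype_card, Fintype.card_set, ← Nat.card_eq_fintype_card,
            card_cm hS₀ hd]
      _ ≤ 2 ^ d * finrank K M := by
          exact Nat.mul_le_mul_left _ (card_rootsOfUnity _ _)
      _ ≤ p := hp
  have := Fintype.ofFinite ι
  obtain ⟨c⟩ : Nonempty (ι ↪ Fin p) := by
    refine Function.Embedding.nonempty_of_card_le ?_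
    rw [Fintype.card_fin, ← Nat.card_eq_fintype_card]
    exact hle
  refine (h1 p K ιinf ιp L M hcop hM ι (fun x => x.1.1) (fun x => x.1.2) c (fun x => x.2.1)
    (fun x => x.2.2.1) (fun x => x.2.2.2) ?_).mono ?_
  · intro i j hij
    rw [c.injective hij]
    exact ⟨rfl, 0, fun g => by rw [pow_zero, pow_one]⟩
  · rintro N ⟨hN1, hN2, hN3⟩
    exact ⟨hN1, hN2, fun S χ₀ hS hO hχ => hN3 ⟨(S, χ₀), hS, hO, hχ⟩⟩

end Pool.Agent.Helper83.RD
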